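import Pool.Agent.Y145.KS.Sum

/-!
# The Hasse-Davenport relation for Gauss sums over extensions
-/

set_option autoImplicit false
set_option linter.unusedSectionVars false
set_option linter.style.haveILetI false

namespace Pool.Agent.Y145.DW

open Polynomial Finset
open Pool.Agent.H341R2.Sharp Pool.Agent.H498R2.Kl Pool.Agent.Y145.KS

variable {F : Type} [Field F] [Fintype F] [DecidableEq F]

/-- The multiplicative function on the monic polynomials attached to a Gauss sum. -/
noncomputable def lamG (χ : MulChar F ℂ) (ψ : AddChar F ℂ) (h : F[X]) : ℂ :=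
  χ ((-1) ^ h.natDegree * h.coeff 0) * ψ (-h.nextCoeff)

theorem lamG_mult (χ : MulChar F ℂ) (ψ : AddChar F ℂ) : Mult (lamG χ ψ) := by
  constructor
  · unfold lamG
    have h1 : (1 : F[X]).nextCoeff = 0 := by simp [nextCoeff]
    rw [h1]
    simp
  · intro g h hg hh
    unfold lamG
    rw [hg.natDegree_mul hh, mul_coeff_zero, hg.nextCoeff_mul hh, neg_add, AddChar.map_add_eq_mul,
      pow_add, mul_mul_mul_comm ((-1 : F) ^ g.natDegree), map_mul]
    ring

theorem AG_lamG_one (χ : MulChar F ℂ) (ψ : AddChar F ℂ) :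
    AG (lamG χ ψ) 1 = gaussSum χ ψ := by
  unfold AG gaussSum
  symm
  refine sum_bij (fun (a : F) _ => (X - C a : F[X])) ?_ ?_ ?_ ?_
  · intro a _
    rw [mem_Mon]
    exact ⟨monic_X_sub_C a, natDegree_X_sub_C a⟩
  · intro a _ b _ h
    have h1 := congrArg (fun P : F[X] => P.coeff 0) h
    simpa using h1
  · intro h hh
    rw [mem_Mon] at hh
    refine ⟨-h.coeff 0, mem_univ _, ?_⟩
    have h2 := h.as_sum_range_C_mul_X_pow
    rw [hh.2] at h2
    have h3 : h.coeff 1 = 1 := by
      have := hh.1
      rw [Monic, leadingCoeff, hh.2] at this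
      exact this
    rw [h2]
    simp only [sum_range_succ, sum_range_zero, h3]
    simp
    ring
  · intro a _
    unfold lamG
    rw [natDegree_X_sub_C, nextCoeff_X_sub_C]
    simp

theorem AG_lamG_eq_zero (χ : MulChar F ℂ) {ψ : AddChar F ℂ} (hψ : ψ ≠ 1) (n : ℕ) (hn : 2 ≤ n) :
    AG (lamG χ ψ) n = 0 := by
  obtain ⟨t, ht⟩ := AddChar.ne_one_iff.1 hψ
  have key : AG (lamG χ ψ) n = ψ t * AG (lamG χ ψ) n := by
    conv_lhs => unfold AG
    have hdeg : ∀ (c : F) (h : F[X]), h ∈ Mon F n → (h + C c * X ^ (n - 1)) ∈ Mon F n ∧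
        (h + C c * X ^ (n - 1)).coeff 0 = h.coeff 0 ∧
        (h + C c * X ^ (n - 1)).nextCoeff = h.nextCoeff + c := by
      intro c h hh
      rw [mem_Mon] at hh
      have h1 : (C c * X ^ (n - 1) : F[X]).degree < h.degree := by
        refine (degree_C_mul_X_pow_le _ _).trans_lt ?_
        rw [degree_eq_natDegree hh.1.ne_zero, hh.2]
        exact_mod_cast (by omega : n - 1 < n)
      have h2 : (h + C c * X ^ (n - 1)).Monic := hh.1.add_of_left h1
      have h3 : (h + C c * X ^ (n - 1)).natDegree = n := by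
        rw [natDegree_add_eq_left_of_degree_lt h1, hh.2]
      refine ⟨mem_Mon.2 ⟨h2, h3⟩, ?_, ?_⟩
      · rw [coeff_add, coeff_C_mul, coeff_X_pow, if_neg (by omega), mul_zero, add_zero]
      · rw [nextCoeff_of_natDegree_pos (by omega), nextCoeff_of_natDegree_pos (by omega), h3, hh.2,
          coeff_add, coeff_C_mul, coeff_X_pow, if_pos rfl, mul_one]
    have h1 : ψ t * AG (lamG χ ψ) n = ∑ h ∈ Mon F n, ψ t * lamG χ ψ h := by
      unfold AG
      rw [mul_sum]
    rw [h1]
    refine sum_bij' (fun h _ => h + C t * X ^ (n - 1)) (fun h _ => h + C (-t) * X ^ (n - 1))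
      ?_ ?_ ?_ ?_ ?_
    · intro h hh
      exact (hdeg t h hh).1
    · intro h hh
      exact (hdeg (-t) h hh).1
    · intro h _
      rw [map_neg]
      ring
    · intro h _
      rw [map_neg]
      ring
    · intro h hh
      obtain ⟨h2, h3, h4⟩ := hdeg t h hh
      unfold lamG
      rw [h3, h4, (mem_Mon.1 h2).2, (mem_Mon.1 hh).2, neg_add, AddChar.map_add_eq_mul]
      have h5 : ψ t * ψ (-t) = 1 := by
        rw [← AddChar.map_add_eq_mul, add_neg_cancel, AddChar.map_zero_eq_one]
      linear_combination (-(χ ((-1) ^ n * h.coeff 0) * ψ (-h.nextCoeff))) * h5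
  by_contra h0
  apply ht
  have h1 : (ψ t - 1) * AG (lamG χ ψ) n = 0 := by linear_combination -key
  rcases mul_eq_zero.1 h1 with h2 | h2
  · exact sub_eq_zero.1 h2
  · exact absurd h2 h0

theorem TG_lamG (χ : MulChar F ℂ) {ψ : AddChar F ℂ} (hψ : ψ ≠ 1) (m : ℕ) (hm : 0 < m) :
    TG (lamG χ ψ) m = (-1) ^ (m - 1) * gaussSum χ ψ ^ m := by
  induction m with
  | zero => omega
  | succ m ih =>
    have hHID := n_mul_AG (lamG_mult χ ψ) (m + 1)
    rcases Nat.eq_zero_or_pos m with h0 | h0
    · subst h0
      rw [zero_add, Icc_self, sum_singleton, Nat.sub_self, AG_zero (lamG_mult χ ψ), one_mul,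
        Nat.cast_one, one_mul, AG_lamG_one] at hHID
      rw [← hHID]
      simp
    · rw [AG_lamG_eq_zero χ hψ (m + 1) (by omega), mul_zero] at hHID
      have h4 : ∑ x ∈ Icc 1 (m + 1), AG (lamG χ ψ) (m + 1 - x) * TG (lamG χ ψ) x =
          ∑ x ∈ ({m, m + 1} : Finset ℕ), AG (lamG χ ψ) (m + 1 - x) * TG (lamG χ ψ) x := by
        symm
        refine sum_subset ?_ ?_
        · intro x hx
          simp only [mem_insert, mem_singleton] at hx
          rw [mem_Icc]
          omega
        · intro x hx hx2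
          simp only [mem_insert, mem_singleton, not_or] at hx2
          rw [mem_Icc] at hx
          rw [AG_lamG_eq_zero χ hψ _ (by omega), zero_mul]
      rw [h4, sum_pair (by omega), Nat.sub_self, AG_zero (lamG_mult χ ψ), one_mul,
        show m + 1 - m = 1 by omega, AG_lamG_one, ih h0] at hHID
      obtain ⟨j, rfl⟩ : ∃ j, m = j + 1 := ⟨m - 1, by omega⟩
      rw [show j + 1 + 1 - 1 = j + 1 by omega]
      rw [show j + 1 - 1 = j by omega] at hHID
      linear_combination -hHID

theorem norm_trace_minpoly {E : Type} [Field E] [Fintype E] [Algebra F E] (x : E) :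
    Algebra.norm F x = ((-1) ^ (minpoly F x).natDegree * (minpoly F x).coeff 0) ^
      (Module.finrank F E / (minpoly F x).natDegree) ∧
    Algebra.trace F E x = (Module.finrank F E / (minpoly F x).natDegree) •
      (-(minpoly F x).nextCoeff) := by
  have hx : IsIntegral F x := Algebra.IsIntegral.isIntegral x
  haveI : Module.Finite F E := Module.Finite.of_finite
  have h1 : Module.finrank F E / (minpoly F x).natDegree =
      Module.finrank (IntermediateField.adjoin F {x}) E := by
    rw [← IntermediateField.adjoin.finrank hx,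
      ← Module.finrank_mul_finrank F (IntermediateField.adjoin F {x}) E]
    exact Nat.mul_div_cancel_left _ Module.finrank_pos
  rw [h1]
  constructor
  · rw [Algebra.norm_eq_norm_adjoin]
    congr 1
    have h2 := Algebra.PowerBasis.norm_gen_eq_coeff_zero_minpoly (IntermediateField.adjoin.powerBasis hx)
    rw [IntermediateField.adjoin.powerBasis_gen, IntermediateField.minpoly_gen,
      IntermediateField.adjoin.powerBasis_dim] at h2
    exact h2
  · rw [trace_eq_finrank_mul_minpoly_nextCoeff, nsmul_eq_mul]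

/-- **The Hasse-Davenport relation.** -/
theorem hasse_davenport {E : Type} [Field E] [Fintype E] [DecidableEq E] [Algebra F E]
    (χ : MulChar F ℂ) {ψ : AddChar F ℂ} (hψ : ψ ≠ 1) :
    ∑ x : E, χ (Algebra.norm F x) * psi ψ E x =
      (-1) ^ (Module.finrank F E - 1) * gaussSum χ ψ ^ Module.finrank F E := by
  haveI : Module.Finite F E := Module.Finite.of_finite
  rw [← TG_lamG χ hψ _ Module.finrank_pos]
  let g : F[X] → ℂ := fun P => lamG χ ψ P ^ (Module.finrank F E / P.natDegree)
  have h1 : ∀ x : E, χ (Algebra.norm F x) * psi ψ E x = g (minpoly F x) := by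
    intro x
    obtain ⟨h2, h3⟩ := norm_trace_minpoly (F := F) x
    rw [psi_apply, h2, h3, map_pow, AddChar.map_nsmul_eq_pow, ← mul_pow]
    rfl
  rw [sum_congr rfl fun x _ => h1 x, sum_minpoly g]
  rfl

end Pool.Agent.Y145.DW
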